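import Pool.Agent.H874R2.WDe

/-!
`MP_b40933_gt`: the union of two closed `wΔ`-subspaces need not be a `wΔ`-space.

The space `Y` of the starting example is zero-dimensional, it has a dense set of isolated points,
and it is the union of a closed countably compact subspace `A` and of a closed `wΔ`-subspace `B`.
The natural map from the topological sum of `A` and `B` onto `Y` is perfect and at most two-to-one.
-/

namespace Pool.Agent.Results.MP_b40933_gt.ClosedUnion

open H874R2.WD Set Filter Topology

/-- `wΔ` passes to closed embedded spaces. -/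
theorem wDelta_of_closedEmbedding {V W : Type} [TopologicalSpace V] [TopologicalSpace W]
    {e : W → V} (he : IsClosedEmbedding e) (h : IsWDelta V) : IsWDelta W := by
  obtain ⟨G, hG, hc⟩ := h
  refine ⟨fun n => (fun g => e ⁻¹' g) '' G n, fun n => ⟨?_, ?_⟩, ?_⟩
  · rintro _ ⟨g, hg, rfl⟩
    exact ((hG n).1 g hg).preimage he.continuous
  · refine Set.eq_univ_of_forall fun w => ?_
    have h1 : e w ∈ ⋃₀ G n := by
      rw [(hG n).2]
      exact mem_univ _
    obtain ⟨g, hg, hwg⟩ := h1
    exact ⟨e ⁻¹' g, ⟨g, hg, rfl⟩, hwg⟩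
  · intro w u hu
    obtain ⟨y, hy⟩ := hc (e w) (fun n => e (u n)) (fun n => by
      obtain ⟨_, ⟨⟨g, hg, rfl⟩, hw⟩, hun⟩ := hu n
      exact ⟨g, ⟨hg, hw⟩, hun⟩)
    rw [mapClusterPt_iff_frequently] at hy
    have hyr : y ∈ range e := by
      by_contra hcon
      have h1 : (range e)ᶜ ∈ 𝓝 y := he.isClosed_range.isOpen_compl.mem_nhds hcon
      obtain ⟨n, hn⟩ := (hy _ h1).exists
      exact hn ⟨u n, rfl⟩
    obtain ⟨b, rfl⟩ := hyr
    refine ⟨b, ?_⟩
    rw [mapClusterPt_iff_frequently]
    intro s hs
    rw [he.isInducing.nhds_eq_comap, mem_comap] at hs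
    obtain ⟨t, ht, hts⟩ := hs
    exact (hy t ht).mono fun n hn => hts hn

/-- The countably compact part. -/
def A : Set Y := isDᶜ

/-- The second part. -/
def B : Set Y := isIᶜ

theorem isClosed_A : IsClosed A := isOpen_isD.isClosed_compl

theorem isClosed_B : IsClosed B := isOpen_isI.isClosed_compl

theorem union_AB : A ∪ B = univ := by
  refine Set.eq_univ_of_forall fun y => ?_
  by_cases hy : y ∈ isI
  · left
    obtain ⟨z, rfl⟩ := hy
    rintro ⟨z', j, e⟩
    cases e
  · exact Or.inr hy

/-- The embedding of the sum of `A` and `B` in the space `X`. -/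
def emb : A ⊕ B → X :=
  Sum.elim (fun a => ⟨(a.1, true), fun h => absurd h (by simp), fun _ => a.2⟩)
    (fun b => ⟨(b.1, false), fun _ => b.2, fun h => absurd h (by simp)⟩)

theorem isClosedEmbedding_emb : IsClosedEmbedding emb := by
  refine IsClosedEmbedding.of_continuous_injective_isClosedMap ?_ ?_ ?_
  · refine Continuous.sumElim ?_ ?_
    · exact Continuous.subtype_mk (continuous_subtype_val.prodMk continuous_const) _
    · exact Continuous.subtype_mk (continuous_subtype_val.prodMk continuous_const) _
  · rintro (a | b) (a' | b') h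
    · have h1 : (a.1, true) = (a'.1, true) := congrArg Subtype.val h
      have h2 : a.1 = a'.1 := congrArg Prod.fst h1
      rw [Subtype.ext h2]
    · have h1 : (a.1, true) = (b'.1, false) := congrArg Subtype.val h
      have h2 : true = false := congrArg Prod.snd h1
      cases h2
    · have h1 : (b.1, false) = (a'.1, true) := congrArg Subtype.val h
      have h2 : false = true := congrArg Prod.snd h1
      cases h2
    · have h1 : (b.1, false) = (b'.1, false) := congrArg Subtype.val h
      have h2 : b.1 = b'.1 := congrArg Prod.fst h1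
      rw [Subtype.ext h2]
  · refine IsClosedMap.sumElim ?_ ?_
    · intro C hC
      have h1 : IsClosed (Subtype.val '' C : Set Y) :=
        isClosed_A.isClosedEmbedding_subtypeVal.isClosedMap C hC
      have h2 : IsClosed ((Subtype.val : X → Y × Bool) ⁻¹' ((Subtype.val '' C) ×ˢ {true})) :=
        (h1.prod (isClosed_discrete _)).preimage continuous_subtype_val
      convert h2 using 1
      ext x
      constructor
      · rintro ⟨a, ha, rfl⟩
        exact ⟨⟨a, ha, rfl⟩, rfl⟩
      · rintro ⟨⟨a, ha, hax⟩, hx⟩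
        refine ⟨a, ha, ?_⟩
        apply Subtype.ext
        apply Prod.ext
        · exact hax
        · have hx : x.1.2 = true := hx
          exact hx.symm
    · intro C hC
      have h1 : IsClosed (Subtype.val '' C : Set Y) :=
        isClosed_B.isClosedEmbedding_subtypeVal.isClosedMap C hC
      have h2 : IsClosed ((Subtype.val : X → Y × Bool) ⁻¹' ((Subtype.val '' C) ×ˢ {false})) :=
        (h1.prod (isClosed_discrete _)).preimage continuous_subtype_val
      convert h2 using 1
      ext x
      constructor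
      · rintro ⟨a, ha, rfl⟩
        exact ⟨⟨a, ha, rfl⟩, rfl⟩
      · rintro ⟨⟨a, ha, hax⟩, hx⟩
        refine ⟨a, ha, ?_⟩
        apply Subtype.ext
        apply Prod.ext
        · exact hax
        · have hx : x.1.2 = false := hx
          exact hx.symm

theorem sum_wDelta : IsWDelta (A ⊕ B) := wDelta_of_closedEmbedding isClosedEmbedding_emb X_wDelta

theorem B_wDelta : IsWDelta B := wDelta_of_closedEmbedding IsClosedEmbedding.inr sum_wDelta

theorem sum_t35 : T35Space (A ⊕ B) := isClosedEmbedding_emb.isEmbedding.t35Space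

/-- The natural map of the sum of `A` and `B` onto `Y`. -/
def nat : A ⊕ B → Y := Sum.elim Subtype.val Subtype.val

theorem nat_eq (x : A ⊕ B) : f (emb x) = nat x := by
  rcases x with a | b <;> rfl

theorem nat_fibre (y : Y) : nat ⁻¹' {y} = emb ⁻¹' (f ⁻¹' {y}) := by
  ext x
  simp only [mem_preimage, nat_eq]

theorem nat_perfect : IsPerfect nat := by
  refine ⟨continuous_subtype_val.sumElim continuous_subtype_val,
    isClosed_A.isClosedEmbedding_subtypeVal.isClosedMap.sumElim
      isClosed_B.isClosedEmbedding_subtypeVal.isClosedMap, ?_, fun y => ?_⟩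
  · intro y
    have hy : y ∈ A ∪ B := by rw [union_AB]; exact mem_univ y
    rcases hy with hy | hy
    · exact ⟨Sum.inl ⟨y, hy⟩, rfl⟩
    · exact ⟨Sum.inr ⟨y, hy⟩, rfl⟩
  · rw [nat_fibre]
    exact isClosedEmbedding_emb.isCompact_preimage (f_perfect.2.2.2 y)

theorem nat_two (y : Y) : (nat ⁻¹' {y}).encard ≤ 2 := by
  rw [← isClosedEmbedding_emb.injective.encard_image]
  refine (Set.encard_le_encard ?_).trans (f_two y)
  rw [nat_fibre]
  exact image_preimage_subset _ _

theorem A_countablyCompact : IsCountablyCompact A := by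
  rw [isCountablyCompact_iff_seq_clusterPt]
  intro x hx
  obtain ⟨n0, hn0⟩ := eventually_atTop.1 hx
  let u : ℕ → X := fun n => emb (Sum.inl ⟨x (n + n0), hn0 _ (by omega)⟩)
  obtain ⟨y, hy⟩ := cluster_K u fun n => rfl
  rw [mapClusterPt_iff_frequently] at hy
  have hfu : ∀ n, f (u n) = x (n + n0) := fun n => rfl
  have hy' : ∀ s ∈ 𝓝 (f y), ∃ᶠ n in atTop, x (n + n0) ∈ s := by
    intro s hs
    have h1 : f ⁻¹' s ∈ 𝓝 y := f_perfect.1.continuousAt hs
    exact (hy _ h1).mono fun n hn => hn
  refine ⟨f y, ?_, ?_⟩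
  · by_contra hcon
    obtain ⟨n, hn⟩ := (hy' _ (isClosed_A.isOpen_compl.mem_nhds hcon)).exists
    exact hn (hn0 _ (by omega))
  · refine cluster_of_subseq (φ := fun n => n + n0) (fun a b h => by simpa using h) fun s hs => ?_
    rw [← Nat.frequently_atTop_iff_infinite]
    exact hy' s hs

theorem dense_isolated : Dense {y : Y | IsOpen ({y} : Set Y)} := by
  intro y
  rw [mem_closure_iff]
  intro O hO hy
  rcases y with ⟨z, j⟩ | z | q
  · exact ⟨Y.d z j, hy, isOpen_d z j⟩
  · exact ⟨Y.i z, hy, isOpen_i z⟩
  · obtain ⟨R, hR, m, hm⟩ := isOpen_iffY.1 hO q hy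
    obtain ⟨z, hz⟩ := q.1.nonempty_of_mem hR
    exact ⟨Y.i z, hm (i_mem_N.mpr hz), isOpen_i z⟩

/-- There is a `T₃.₅` space `Y` with a base of clopen sets and a dense set of isolated points which
is not a `wΔ`-space, although it is the union of a closed countably compact subspace `A` and of a
closed `wΔ`-subspace `B`.  The topological sum of `A` and `B` is a `T₃.₅` `wΔ`-space, and its
natural map onto `Y` is perfect and at most two-to-one. -/
theorem result :
    ∃ (Y : Type) (_ : TopologicalSpace Y) (A B : Set Y),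
      T35Space Y ∧ TopologicalSpace.IsTopologicalBasis {s : Set Y | IsClopen s} ∧
      Dense {y : Y | IsOpen ({y} : Set Y)} ∧
      IsClosed A ∧ IsClosed B ∧ A ∪ B = univ ∧ IsCountablyCompact A ∧ IsWDelta B ∧
      T35Space (A ⊕ B) ∧ IsWDelta (A ⊕ B) ∧
      IsPerfect (Sum.elim Subtype.val Subtype.val : A ⊕ B → Y) ∧
      (∀ y : Y, ((Sum.elim Subtype.val Subtype.val : A ⊕ B → Y) ⁻¹' {y}).encard ≤ 2) ∧
      ¬ IsWDelta Y :=
  ⟨Y, inferInstance, A, B, inferInstance, basis_clopen, dense_isolated, isClosed_A, isClosed_B,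
    union_AB, A_countablyCompact, B_wDelta, sum_t35, sum_wDelta, nat_perfect, nat_two, not_wDelta⟩

end Pool.Agent.Results.MP_b40933_gt.ClosedUnion
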